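import Pool.Agent.V5helper55.FQ.Emb

/-!
# A theorem of Furtwängler over number fields, for all solutions of the Fermat equation

Let `K` be a number field of degree `m`, let `p ≥ 5` be a prime with `3 m ≤ p`, and let `x, y, z` be
nonzero elements of `K` with `x ^ p + y ^ p + z ^ p = 0`. No assumption is made on the divisibility of
`x y z` by the primes above `p`: the first case, the second case and all mixed cases (some primes
above `p` divide `x y z` and others do not) are allowed. For a prime number `r` let

  `T r = #{σ : |σ x| < |σ y|} - #{σ : |σ y| < |σ x|}`,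

where `σ` runs through the `m` embeddings of `K` into the algebraic closure of the `r`-adic numbers.
Let `q ≠ p` be a prime number such that `q ^ (p - 1)` is not `1` modulo `p ^ 2`, and suppose that each
prime `v` of `K` above `q` satisfies one of the following conditions: `v` has norm at most four;
`v` divides exactly one of `x`, `y` (after scaling); `v` divides `z` and its norm is not `1` modulo
`p`, or `x = - y` modulo `v`; `v` divides none of `x, y, z` and `x ^ (q + 1) = y ^ (q + 1)` modulo `v`.

(A) The sum of `σ ((x - y) / z)` over the embeddings `σ` at `p` with `|σ x| = |σ y| = |σ z|` is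
    congruent to `T q - T p`. This needs no condition on the exponent `p`.
(B) If the number `u` of these embeddings is zero, or `2 u + 3 ≤ p` and `p` does not divide
    `B (p - 3), ..., B (p - 2 u - 1)`, or `u (i + 1) (i + 2) + 3 ≤ p` for the index of irregularity `i`
    of `p`, then `T p = T q`.
(C) For two such primes `q`, `q'` one has `T q = T q'`, without any condition on `p`.

For `K = ℚ` this contains the theorem of Furtwängler (a prime divisor `q` of `x` satisfies
`q ^ (p - 1) = 1` modulo `p ^ 2` unless `p` divides `x`) and the one on the divisors of `x - y`. In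
general: if every prime of `K` above `q` divides `x`, then every prime above `p` divides `x`, or one
of the conditions on `p` fails. For `q = 2` and a field in which all primes above two have norm two or
four there is no condition at `q`.

Proof. Multiply by an element of `K` such that `X, Y, Z` are integers without a common prime divisor
above `p q`, and let `f (T) = N (X + T Y)`. The value of `f` at a `p`-th root of unity `ζ` is, up to a
rational number and a power of `1 - ζ`, the `p`-th power of an ideal; the power of `1 - ζ` is the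
number `n` of embeddings at which `p` divides `z`, and `f = (T - 1) ^ n h` modulo `p`. The relations
of Stickelberger for all Jacobi sums applied to `h (ζ)` are congruences modulo `(T - 1) ^ (p - 1)`
for `h`. The residues of `X + ζ Y` modulo the primes above `q`, raised to the power `q`, and the
condition that `q ^ (p - 1)` is not `1` modulo `p ^ 2` determine the root of unity in each relation.
The first order term of the relations gives (A). Modulo `p` the polynomial `h` is a product of a power
of `T`, the exponent being the number of embeddings at which `p` divides `x`, and of a polynomial `G`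
of degree `u` with `G (0) ≠ 0`, and the relations force `G` to be palindromic, which gives (B).
-/

set_option autoImplicit false

namespace Pool.Agent.Results.MP_ef6a16_nt.FurtwaenglerTypes

open NumberField IsDedekindDomain

/-- The even numbers `k` with `2 ≤ k ≤ p - 3` for which `p` divides the numerator of the Bernoulli
number with index `k`. Their number is the index of irregularity of `p`. -/
def Irregular (p : ℕ) : Finset ℕ :=
  (Finset.range p).filter fun k => Even k ∧ 2 ≤ k ∧ k + 3 ≤ p ∧ (p : ℤ) ∣ (bernoulli k).num

/-- The number of embeddings of `K` into the algebraic closure of the `r`-adic numbers at which `a`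
is smaller than `b`, minus the number of those at which `b` is smaller than `a`. -/
noncomputable def T (r : ℕ) [Fact r.Prime] {K : Type} [Field K] (a b : K) : ℤ :=
  (Nat.card {σ : K →+* PadicAlgCl r // ‖σ a‖ < ‖σ b‖} : ℤ) -
    Nat.card {σ : K →+* PadicAlgCl r // ‖σ b‖ < ‖σ a‖}

/-- The conditions on the prime number `q`. -/
def Admissible (p q : ℕ) {K : Type} [Field K] [NumberField K] (x y z : K) : Prop :=
  q ≠ p ∧ ¬ p ^ 2 ∣ q ^ (p - 1) - 1 ∧
  ∀ v : HeightOneSpectrum (𝓞 K), ((q : ℕ) : 𝓞 K) ∈ v.asIdeal →
    Nat.card (𝓞 K ⧸ v.asIdeal) ≤ 4 ∨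
    v.valuation K x ≠ v.valuation K y ∨
    (v.valuation K z < v.valuation K x ∧ ¬ p ∣ Nat.card (𝓞 K ⧸ v.asIdeal) - 1) ∨
    v.valuation K (x + y) < v.valuation K x ∨
    (v.valuation K z = v.valuation K x ∧
      v.valuation K (x ^ (q + 1) - y ^ (q + 1)) < v.valuation K (x ^ (q + 1)))

/-- The embeddings at `p` of the first case. -/
noncomputable def firstCase (p : ℕ) [Fact p.Prime] {K : Type} [Field K] [NumberField K]
    (x y z : K) : Finset (K →+* PadicAlgCl p) :=
  open Classical in Finset.univ.filter fun σ => ‖σ x‖ = ‖σ y‖ ∧ ‖σ y‖ = ‖σ z‖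

theorem result (K : Type) [Field K] [NumberField K] (m : ℕ) (hK : Module.finrank ℚ K = m)
    (p : ℕ) [Fact p.Prime] (h5 : 5 ≤ p) (hmp : 3 * m ≤ p)
    (x y z : K) (hx : x ≠ 0) (hy : y ≠ 0) (hz : z ≠ 0) (h : x ^ p + y ^ p + z ^ p = 0)
    (q : ℕ) [Fact q.Prime] (hq : Admissible p q x y z) :
    -- (A)
    ‖∑ σ ∈ firstCase p x y z, σ ((x - y) / z) - ((T q x y - T p x y : ℤ) : PadicAlgCl p)‖ < 1 ∧
    -- (B)
    (∀ u : ℕ, u = (firstCase p x y z).card →
      (u = 0 ∨ (2 * u + 3 ≤ p ∧ ∀ k ∈ Irregular p, k + 2 * u + 1 < p) ∨
        u * (((Irregular p).card + 1) * ((Irregular p).card + 2)) + 3 ≤ p) →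
      T p x y = T q x y) ∧
    -- (C)
    (∀ (q' : ℕ) [Fact q'.Prime], Admissible p q' x y z → T q x y = T q' x y) := by
  classical
  subst hK
  have hcard : (firstCase p x y z).card =
      Nat.card {σ : K →+* PadicAlgCl p // ‖σ x‖ = ‖σ y‖ ∧ ‖σ y‖ = ‖σ z‖} := by
    rw [Nat.card_eq_fintype_card, Fintype.card_subtype]
    unfold firstCase
    congr 1
  have hA : ∀ (r : ℕ) [Fact r.Prime], Admissible p r x y z →
      ‖∑ σ ∈ firstCase p x y z, σ ((x - y) / z) -
        ((T r x y - T p x y : ℤ) : PadicAlgCl p)‖ < 1 := by
    intro r _ hr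
    obtain ⟨h1, h2, h3⟩ := hr
    have h4 := (V5helper55.FQ.mainE h5 hmp h1 h2 hx hy hz h h3).1
    have e : firstCase p x y z = Finset.univ.filter (fun σ : K →+* PadicAlgCl p =>
        ‖σ x‖ = ‖σ y‖ ∧ ‖σ y‖ = ‖σ z‖) := by
      unfold firstCase
      ext σ
      simp
    rw [e]
    exact h4
  refine ⟨hA q hq, ?_, ?_⟩
  · intro u hu hB
    obtain ⟨h1, h2, h3⟩ := hq
    apply (V5helper55.FQ.mainE h5 hmp h1 h2 hx hy hz h h3).2
    rw [← hcard, ← hu]
    rcases hB with h | h | h
    · right
      rw [h]
      omega
    · exact Or.inl h
    · exact Or.inr h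
  · intro q' _ hq'
    have hT : ∀ (r : ℕ) [Fact r.Prime], |T r x y| ≤ Module.finrank ℚ K := by
      intro r _
      have hle : ∀ P : (K →+* PadicAlgCl r) → Prop,
          Nat.card {σ : K →+* PadicAlgCl r // P σ} ≤ Module.finrank ℚ K := by
        intro P
        rw [Nat.card_eq_fintype_card, ← NumberField.Embeddings.card K (PadicAlgCl r)]
        exact Fintype.card_subtype_le _
      have h1 := hle fun σ => ‖σ x‖ < ‖σ y‖
      have h2 := hle fun σ => ‖σ y‖ < ‖σ x‖
      unfold T
      rw [abs_le]
      constructor <;> omega
    have h1 := hA q hq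
    have h2 := hA q' hq'
    have h3 : ‖((T q' x y - T q x y : ℤ) : PadicAlgCl p)‖ < 1 := by
      have e : ((T q' x y - T q x y : ℤ) : PadicAlgCl p) =
          (∑ σ ∈ firstCase p x y z, σ ((x - y) / z) -
            ((T q x y - T p x y : ℤ) : PadicAlgCl p)) +
          -(∑ σ ∈ firstCase p x y z, σ ((x - y) / z) -
            ((T q' x y - T p x y : ℤ) : PadicAlgCl p)) := by
        push_cast
        ring
      rw [e]
      exact V5helper55.FQ.add_lt_one h1 (by rw [norm_neg]; exact h2)
    have h4 : (p : ℤ) ∣ T q' x y - T q x y := by
      have e : ((T q' x y - T q x y : ℤ) : PadicAlgCl p) =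
          algebraMap ℚ_[p] (PadicAlgCl p) ((T q' x y - T q x y : ℤ) : ℚ_[p]) := by
        rw [map_intCast]
      rw [e, norm_algebraMap'] at h3
      exact (Padic.norm_intCast_lt_one_iff).1 h3
    have h5' := hT q
    have h6 := hT q'
    have hm := Module.finrank_pos (R := ℚ) (M := K)
    rw [abs_le] at h5' h6
    have h7 := Int.eq_zero_of_abs_lt_dvd h4 (by
      rw [abs_lt]
      constructor <;> omega)
    omega

end Pool.Agent.Results.MP_ef6a16_nt.FurtwaenglerTypes
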