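import Pool.Agent.V5helper55.FQ.Quad4

/-!
# Quadratic fields: all solutions of the Fermat equation, without a condition on Bernoulli numbers

Let `K` be a quadratic field, let `p ≥ 7` be a prime number such that `2 ^ (p - 1)` is not `1` modulo
`p ^ 2`, and let `x, y, z` be nonzero elements of `K` with `x ^ p + y ^ p + z ^ p = 0`. Nothing is
assumed on the divisibility of `x y z` by the primes above `p`: if `p` splits, one of the two primes
above `p` may divide `x y z` and the other not. For a prime number `r` let `N r (x)`, `N r (y)`,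
`N r (z)` be the numbers of embeddings of `K` into the algebraic closure of the `r`-adic numbers at
which `x` (or `y`, or `z`) is smaller than the other two, and let `N r (0)` be the number of those at
which the three have the same absolute value. The sum of the four numbers is two.

(1) One of the following holds.
    (I) `N p (0) = N 2 (0) = 0` and `N p = N 2`. So every prime above `p` and every prime above two
        divides exactly one of `x, y, z` (after scaling), and in the same way.
    (II) `N p (0) = 2`, `N 2 (0) = 2` and `x ^ 2 + x y + y ^ 2 = 0` modulo all primes above `p`.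
    (III) `N p (0) = 2`, `N 2 (0) = 0`, two splits, each of two of the unknowns, `x` and `y` say, is
        divisible by one of the primes above two, and `2 x ^ 2 + x y + 2 y ^ 2 = 0` modulo all primes
        above `p`.
(2) Let `q ≠ p` be a prime number such that `q ^ (p - 1)` is not `1` modulo `p ^ 2`, and that each prime
    `v` of `K` above `q` has norm at most four, or divides exactly one of `x, y, z`, its norm not
    being `1` modulo `p`. Then `N q = N 2`.
(3) The case (I) holds if the discriminant `D` of `K` is even; or if `D = 1` modulo eight and `p` does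
    not divide `B (p - 3)` or `- 15 D` is not a nonzero square modulo `p`; or if `D = 5` modulo eight
    and `- 3 D` is not a nonzero square modulo `p`.
(4) In case (I), if there is only one prime above two, then one of `x, y, z` is divisible (after scaling)
    by all primes above `2 p`.

For instance, if three ramifies in `K` and `3 ^ (p - 1)` is not `1` modulo `p ^ 2`, then (2) with `q = 3`
excludes (III), and in case (I) it shows that one of `x, y, z` is divisible by all primes above `6 p`.

Proof. The relation of first order obtained from the relations of Stickelberger and of Wieferich (see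
the results on all number fields): the sum of `(x - y) / z` over the embeddings at `p` with
`|σ x| = |σ y| = |σ z|` is the integer `N 2 (x) - N 2 (y) - N p (x) + N p (y)` modulo `p`, and in the
same way for the other pairs. It needs no condition on `p` besides that of Wieferich. If there are no
such embeddings this gives (I). If there is exactly one, then the identity
`(x - y) / z + (y - z) / x + (z - x) / y = - (x - y) (y - z) (z - x) / (x y z)` gives `x = y` (or
`y = z`, or `z = x`) in the residue field, and then the equation modulo `p v` gives `2 ^ p = 2` modulo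
`p ^ 2`. If there are two, the two residues `t, t'` of `y / x` satisfy two equations, which are solved in
each of the seven cases for `N 2`; four of them have the solutions (II), (III), and three none.
-/

set_option autoImplicit false

namespace Pool.Agent.Results.MP_ef6a16_nt.QuadraticTypes

open NumberField IsDedekindDomain

/-- The number of embeddings of `K` into the algebraic closure of the `r`-adic numbers at which `a`
is smaller than `b`. -/
noncomputable def smaller (r : ℕ) [Fact r.Prime] {K : Type} [Field K] (a b : K) : ℕ :=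
  Nat.card {σ : K →+* PadicAlgCl r // ‖σ a‖ < ‖σ b‖}

/-- The number of those at which `x, y, z` have the same absolute value. -/
noncomputable def balanced (r : ℕ) [Fact r.Prime] {K : Type} [Field K] (x y z : K) : ℕ :=
  Nat.card {σ : K →+* PadicAlgCl r // ‖σ x‖ = ‖σ y‖ ∧ ‖σ y‖ = ‖σ z‖}

/-- Case (I). -/
def CaseI (p : ℕ) [Fact p.Prime] {K : Type} [Field K] (x y z : K) : Prop :=
  balanced p x y z = 0 ∧ balanced 2 x y z = 0 ∧ smaller p x y = smaller 2 x y ∧
    smaller p y z = smaller 2 y z ∧ smaller p z x = smaller 2 z x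

/-- Case (II). -/
def CaseII (p : ℕ) [Fact p.Prime] {K : Type} [Field K] (x y z : K) : Prop :=
  balanced p x y z = 2 ∧ balanced 2 x y z = 2 ∧
    ∀ σ : K →+* PadicAlgCl p, ‖σ (x ^ 2 + x * y + y ^ 2)‖ < ‖σ (x ^ 2)‖

/-- Case (III), with `x` and `y` divisible by the primes above two. -/
def CaseIII (p : ℕ) [Fact p.Prime] {K : Type} [Field K] (x y z : K) : Prop :=
  balanced p x y z = 2 ∧ balanced 2 x y z = 0 ∧ smaller 2 x y = 1 ∧ smaller 2 y z = 1 ∧
    ∀ σ : K →+* PadicAlgCl p, ‖σ (2 * x ^ 2 + x * y + 2 * y ^ 2)‖ < ‖σ (x ^ 2)‖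

theorem result (K : Type) [Field K] [NumberField K] (hK : Module.finrank ℚ K = 2)
    (p : ℕ) [Fact p.Prime] (h7 : 7 ≤ p) (hW : ¬ p ^ 2 ∣ 2 ^ (p - 1) - 1)
    (x y z : K) (hx : x ≠ 0) (hy : y ≠ 0) (hz : z ≠ 0) (h : x ^ p + y ^ p + z ^ p = 0) :
    -- (1)
    (CaseI p x y z ∨ CaseII p x y z ∨ CaseIII p x y z ∨ CaseIII p y z x ∨ CaseIII p z x y) ∧
    -- (2)
    (∀ (q : ℕ) [Fact q.Prime], q ≠ p → ¬ p ^ 2 ∣ q ^ (p - 1) - 1 →
      (∀ v : HeightOneSpectrum (𝓞 K), ((q : ℕ) : 𝓞 K) ∈ v.asIdeal →
        Nat.card (𝓞 K ⧸ v.asIdeal) ≤ 4 ∨ (¬ p ∣ Nat.card (𝓞 K ⧸ v.asIdeal) - 1 ∧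
          ¬ (v.valuation K x = v.valuation K y ∧ v.valuation K y = v.valuation K z))) →
      smaller q x y = smaller 2 x y ∧ smaller q y z = smaller 2 y z ∧
        smaller q z x = smaller 2 z x ∧ balanced q x y z = balanced 2 x y z) ∧
    -- (3)
    ((Even (NumberField.discr K) ∨
      (NumberField.discr K % 8 = 1 ∧ (¬ (p : ℤ) ∣ (bernoulli (p - 3)).num ∨
        ¬ ∃ s : ZMod p, s ≠ 0 ∧ s ^ 2 = -15 * (NumberField.discr K : ZMod p))) ∨
      (NumberField.discr K % 8 = 5 ∧
        ¬ ∃ s : ZMod p, s ≠ 0 ∧ s ^ 2 = -3 * (NumberField.discr K : ZMod p))) →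
      CaseI p x y z) ∧
    -- (4)
    (CaseI p x y z →
      (∀ v v' : HeightOneSpectrum (𝓞 K), (2 : 𝓞 K) ∈ v.asIdeal → (2 : 𝓞 K) ∈ v'.asIdeal →
        v = v') →
      (smaller p x y = 2 ∧ smaller 2 x y = 2) ∨ (smaller p y z = 2 ∧ smaller 2 y z = 2) ∨
        (smaller p z x = 2 ∧ smaller 2 z x = 2)) := by
  have hpp : p.Prime := Fact.out
  have hp0 := hpp.ne_zero
  have hcast : ((2 : ℕ) : 𝓞 K) = 2 := by norm_num
  have hbr : balanced p y z x = balanced p x y z := V5helper55.FQ.frst_rot (q := p) x y z
  have hbr2 : balanced 2 y z x = balanced 2 x y z := V5helper55.FQ.frst_rot (q := 2) x y z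
  have hbs : balanced p z x y = balanced p x y z :=
    (V5helper55.FQ.frst_rot (q := p) y z x).trans hbr
  have hbs2 : balanced 2 z x y = balanced 2 x y z :=
    (V5helper55.FQ.frst_rot (q := 2) y z x).trans hbr2
  have main : CaseI p x y z ∨ CaseII p x y z ∨ CaseIII p x y z ∨ CaseIII p y z x ∨
      CaseIII p z x y := by
    rcases V5helper55.FQ.quad_main h7 hK hx hy hz h hW with h1 | h1 | ⟨h1, h2, h3 | h3 | h3⟩
    · exact Or.inl h1
    · exact Or.inr (Or.inl h1)
    · exact Or.inr (Or.inr (Or.inl ⟨h1, h2, h3.1, h3.2.1, h3.2.2⟩))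
    · exact Or.inr (Or.inr (Or.inr (Or.inl ⟨hbr.trans h1, hbr2.trans h2, h3.1, h3.2.1, h3.2.2⟩)))
    · exact Or.inr (Or.inr (Or.inr (Or.inr ⟨hbs.trans h1, hbs2.trans h2, h3.1, h3.2.1, h3.2.2⟩)))
  refine ⟨main, ?_, ?_, ?_⟩
  · intro q _ hqp hWq hq
    exact V5helper55.FQ.quad_q h7 hK hx hy hz h hW q hqp hWq hq
  · intro hd
    have hd' : Even (NumberField.discr K) ∨
        (NumberField.discr K % 8 = 1 ∧ (p - 3 ∉ Y546.WQ.irr p ∨
          ¬ ∃ s : ZMod p, s ≠ 0 ∧ s ^ 2 = -15 * (NumberField.discr K : ZMod p))) ∨
        (NumberField.discr K % 8 = 5 ∧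
          ¬ ∃ s : ZMod p, s ≠ 0 ∧ s ^ 2 = -3 * (NumberField.discr K : ZMod p)) := by
      rcases hd with h | ⟨h, h' | h'⟩ | h
      · exact Or.inl h
      · refine Or.inr (Or.inl ⟨h, Or.inl fun hk => h' ?_⟩)
        unfold Y546.WQ.irr at hk
        exact (Finset.mem_filter.1 hk).2.2.2.2
      · exact Or.inr (Or.inl ⟨h, Or.inr h'⟩)
      · exact Or.inr (Or.inr h)
    have hne : balanced p x y z ≠ 2 := V5helper55.FQ.quad_disc h7 hK hx hy hz h hW hd'
    rcases main with h1 | h1 | h1 | h1 | h1
    · exact h1
    · exact absurd h1.1 hne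
    · exact absurd h1.1 hne
    · exact absurd (hbr.symm.trans h1.1) hne
    · exact absurd (hbs.symm.trans h1.1) hne
  · rintro ⟨h1, h2, h3, h4, h5⟩ h6
    have h7' := V5helper55.FQ.one_two' hp0 hx hy hz h h2
      (fun v v' hv hv' => h6 v v' (by rwa [hcast] at hv) (by rwa [hcast] at hv'))
    rw [hK] at h7'
    rcases h7' with h8 | h8 | h8
    · exact Or.inl ⟨h3.trans h8, h8⟩
    · exact Or.inr (Or.inl ⟨h4.trans h8, h8⟩)
    · exact Or.inr (Or.inr ⟨h5.trans h8, h8⟩)

end Pool.Agent.Results.MP_ef6a16_nt.QuadraticTypes
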