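import Pool.Agent.V5helper55.FQ.Loc3

/-!
# The symmetry of the residues at the balanced primes, for all solutions of the Fermat equation

Let `K` be a number field of degree `m`, let `p ≥ 5` be a prime number with `3 m ≤ p`, and let
`x, y, z` be nonzero elements of `K` with `x ^ p + y ^ p + z ^ p = 0`. Call a prime `v` of `K` above `p`
balanced if `v (x) = v (y) = v (z)`, that is, if the solution is in the first case at `v`, and call an
embedding `σ` of `K` into the algebraic closure of the `p`-adic numbers balanced if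
`|σ x| = |σ y| = |σ z|`. Nothing is assumed on the other primes above `p`. Let `u` be the number of the
balanced embeddings (the sum of the local degrees of the balanced primes) and suppose that `u = 0`, or
`2 u + 3 ≤ p` and `p` does not divide `B (p - 3), ..., B (p - 2 u - 1)`, or
`u (i + 1) (i + 2) + 3 ≤ p` where `i` is the index of irregularity of `p`. Then:

(1) The six families of the residues of `σ (x / y)`, `σ (y / z)`, `σ (z / x)`, `σ (x / z)`,
    `σ (z / y)`, `σ (y / x)`, where `σ` runs through the balanced embeddings, are the same, with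
    multiplicities.
(2) `u = 6 a + 3 b + 2 c`, where `b` is the number of balanced embeddings with `x = y` in the residue
    field, and `2 c` is the number of those with `x ^ 2 + x y + y ^ 2 = 0` in the residue field.
(3) If `2 ^ (p - 1)` is not `1` modulo `p ^ 2`, then `b = 0`, so `u` is even.
(4) `x ^ 2 + x y + y ^ 2 = 0` in the residue field of a balanced prime `v` is possible only if the norm
    of `v` is `1` modulo three. If there is no such `v`, then `c = 0`.
(5) Let `v` be a balanced prime with ramification index `e` and residue degree `f`. If `p = 1` modulo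
    three or `x ^ 2 + x y + y ^ 2` is not zero modulo `v`, then `2 e f ≤ u`. If
    `x ^ 2 + x y + y ^ 2` is not zero modulo `v` and `f` is prime to three, then `3 e f ≤ u`. If it is
    not zero modulo `v`, `f` is prime to six and `2 ^ (p - 1)` is not `1` modulo `p ^ 2`, then
    `6 e f ≤ u`.
(6) If `2 ^ (p - 1)` is not `1` modulo `p ^ 2` and the norms of the balanced primes are not `1` modulo
    three (for instance, if `p = 2` modulo three and the residue degrees at `p` are odd), then six
    divides `u`, and for `m ≤ 5` there is no balanced prime: each prime above `p` divides exactly one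
    of `x, y, z` (after scaling), so the solution is in the second case at every prime above `p`.

There is no condition on the class group, the units, the real places and the primes above two.

Proof. By scaling one may take integers `X, Y, Z` without a common prime divisor above `p`. The value of
`N (X + T Y)` at a `p`-th root of unity `ζ` is a rational number times a power of `1 - ζ` and the
`p`-th power of an ideal, the exponent of `1 - ζ` being the number `n` of embeddings at which `z` is
smaller than `x, y`; and `N (X + T Y) = (T - 1) ^ n T ^ l G` modulo `p`, where `l` is the number of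
embeddings at which `x` is smaller and `G` has degree `u`, with roots the residues of `- x / y` at the
balanced embeddings. The relations of Stickelberger hold for `G`; in the situation of the conditions
on `p` they imply that `G` is palindromic. Hence the residues of `x / y` are invariant under inversion,
and in the same way for the other pairs, which gives (1). Now (2) counts the fixed points of the
symmetric group on the line `x + y + z = 0`, and (5) uses that the residues which belong to `v` are
conjugate under the Frobenius.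
-/

set_option autoImplicit false

namespace Pool.Agent.Results.MP_ef6a16_nt.ResidueSymmetry

open NumberField IsDedekindDomain

/-- The even numbers `k` with `2 ≤ k ≤ p - 3` for which `p` divides the numerator of the Bernoulli
number with index `k`. Their number is the index of irregularity of `p`. -/
def Irregular (p : ℕ) : Finset ℕ :=
  (Finset.range p).filter fun k => Even k ∧ 2 ≤ k ∧ k + 3 ≤ p ∧ (p : ℤ) ∣ (bernoulli k).num

/-- The embedding `σ` is balanced: `x, y, z` have the same absolute value. -/
def Balanced {p : ℕ} [Fact p.Prime] {K : Type} [Field K] (x y z : K) (σ : K →+* PadicAlgCl p) :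
    Prop :=
  ‖σ x‖ = ‖σ y‖ ∧ ‖σ y‖ = ‖σ z‖

/-- The number of the balanced embeddings. -/
noncomputable def total (p : ℕ) [Fact p.Prime] {K : Type} [Field K] (x y z : K) : ℕ :=
  Nat.card {σ : K →+* PadicAlgCl p // Balanced x y z σ}

/-- The number of the balanced embeddings at which `w` has the same residue as `r`. -/
noncomputable def residues {p : ℕ} [Fact p.Prime] {K : Type} [Field K] (x y z w : K)
    (r : PadicAlgCl p) : ℕ :=
  Nat.card {σ : K →+* PadicAlgCl p // Balanced x y z σ ∧ ‖σ w - r‖ < 1}

/-- The number of the balanced embeddings at which `x` and `y` have the same residue. -/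
noncomputable def equal (p : ℕ) [Fact p.Prime] {K : Type} [Field K] (x y z : K) : ℕ :=
  Nat.card {σ : K →+* PadicAlgCl p // Balanced x y z σ ∧ ‖σ (x - y)‖ < ‖σ x‖}

/-- The number of the balanced embeddings with `x ^ 2 + x y + y ^ 2 = 0` in the residue field. -/
noncomputable def cubic (p : ℕ) [Fact p.Prime] {K : Type} [Field K] (x y z : K) : ℕ :=
  Nat.card {σ : K →+* PadicAlgCl p // Balanced x y z σ ∧
    ‖σ (x ^ 2 + x * y + y ^ 2)‖ < ‖σ (x ^ 2)‖}

/-- The prime `v` lies above `p` and is balanced: `x, y, z` have the same valuation. -/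
def BalancedPrime (p : ℕ) {K : Type} [Field K] [NumberField K] (x y z : K)
    (v : HeightOneSpectrum (𝓞 K)) : Prop :=
  ((p : ℕ) : 𝓞 K) ∈ v.asIdeal ∧ v.valuation K x = v.valuation K y ∧
    v.valuation K y = v.valuation K z

/-- `x ^ 2 + x y + y ^ 2` is smaller than `x ^ 2` at `v`. -/
def CubicPrime {K : Type} [Field K] [NumberField K] (x y : K) (v : HeightOneSpectrum (𝓞 K)) :
    Prop :=
  v.valuation K (x ^ 2 + x * y + y ^ 2) < v.valuation K (x ^ 2)

theorem result (K : Type) [Field K] [NumberField K] (m : ℕ) (hK : Module.finrank ℚ K = m)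
    (p : ℕ) [Fact p.Prime] (h5 : 5 ≤ p) (hmp : 3 * m ≤ p)
    (x y z : K) (hx : x ≠ 0) (hy : y ≠ 0) (hz : z ≠ 0) (h : x ^ p + y ^ p + z ^ p = 0)
    (u : ℕ) (hu : u = total p x y z)
    (hB : u = 0 ∨ (2 * u + 3 ≤ p ∧ ∀ k ∈ Irregular p, k + 2 * u + 1 < p) ∨
      u * (((Irregular p).card + 1) * ((Irregular p).card + 2)) + 3 ≤ p) :
    -- (1)
    (∀ r : PadicAlgCl p,
      residues x y z (y / z) r = residues x y z (x / y) r ∧
      residues x y z (z / x) r = residues x y z (x / y) r ∧
      residues x y z (x / z) r = residues x y z (x / y) r ∧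
      residues x y z (z / y) r = residues x y z (x / y) r ∧
      residues x y z (y / x) r = residues x y z (x / y) r) ∧
    -- (2)
    (∃ a c : ℕ, u = 6 * a + 3 * equal p x y z + 2 * c ∧ cubic p x y z = 2 * c) ∧
    -- (3)
    (¬ p ^ 2 ∣ 2 ^ (p - 1) - 1 → equal p x y z = 0 ∧ Even u) ∧
    -- (4)
    ((∀ v, BalancedPrime p x y z v → CubicPrime x y v → Nat.card (𝓞 K ⧸ v.asIdeal) % 3 = 1) ∧
      ((∀ v, BalancedPrime p x y z v → Nat.card (𝓞 K ⧸ v.asIdeal) % 3 ≠ 1) →
        cubic p x y z = 0)) ∧
    -- (5)
    (∀ (v : HeightOneSpectrum (𝓞 K)) (e f : ℕ), BalancedPrime p x y z v →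
      ((p : ℕ) : 𝓞 K) ∈ v.asIdeal ^ e → Ideal.absNorm v.asIdeal = p ^ f →
      (p % 3 = 1 ∨ ¬ CubicPrime x y v → 2 * (e * f) ≤ u) ∧
      (¬ CubicPrime x y v → ¬ 3 ∣ f → 3 * (e * f) ≤ u) ∧
      (¬ CubicPrime x y v → Nat.Coprime 6 f → ¬ p ^ 2 ∣ 2 ^ (p - 1) - 1 → 6 * (e * f) ≤ u)) ∧
    -- (6)
    (¬ p ^ 2 ∣ 2 ^ (p - 1) - 1 →
      (∀ v, BalancedPrime p x y z v → Nat.card (𝓞 K ⧸ v.asIdeal) % 3 ≠ 1) →
      6 ∣ u ∧ (m ≤ 5 → ∀ v, ¬ BalancedPrime p x y z v)) := by
  subst hK
  have hpp : p.Prime := Fact.out
  have hm := Module.finrank_pos (R := ℚ) (M := K)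
  have hu' : V5helper55.FQ.frst p x y z = u := hu.symm
  have hreg : V5helper55.FQ.RegC p (V5helper55.FQ.frst p x y z) := by
    rw [hu']
    rcases hB with h | h | h
    · rw [h]
      exact V5helper55.FQ.RegC_zero (by omega)
    · exact Or.inl h
    · exact Or.inr h
  obtain ⟨s1, s2, s3, a, c, s4, s5⟩ := V5helper55.FQ.mainS h5 hmp hx hy hz h hreg
  rw [hu'] at s4
  have s4' : u = 6 * a + 3 * equal p x y z + 2 * c := s4
  have s5' : cubic p x y z = 2 * c := s5
  have hwie : ¬ p ^ 2 ∣ 2 ^ (p - 1) - 1 → equal p x y z = 0 := by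
    intro hW
    unfold equal
    rw [Nat.card_eq_zero]
    left
    refine ⟨fun ⟨σ, hσ⟩ => ?_⟩
    exact V5helper55.FQ.wiefE (by omega) (by omega) hW hx hy hz h σ hσ.1 hσ.2
  have hcub : (∀ v, BalancedPrime p x y z v → Nat.card (𝓞 K ⧸ v.asIdeal) % 3 ≠ 1) →
      cubic p x y z = 0 := by
    intro h3
    unfold cubic
    rw [Nat.card_eq_zero]
    left
    refine ⟨fun ⟨σ, hσ⟩ => ?_⟩
    exact V5helper55.FQ.omegaE h5 hx hy hz h (fun v hv v1 v2 => h3 v ⟨hv, v1, v2⟩) σ hσ.1 hσ.2
  refine ⟨s1, ⟨a, c, s4', s5'⟩, ?_, ⟨?_, hcub⟩, ?_, ?_⟩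
  · intro hW
    have h0 := hwie hW
    refine ⟨h0, ?_⟩
    rw [s4', h0, Nat.even_iff]
    omega
  · rintro v ⟨hv, v1, v2⟩ hω
    exact V5helper55.FQ.omegaV h5 hx hy hz h v hv v1 v2 hω
  · rintro v e f ⟨hv, v1, v2⟩ hpe hf
    obtain ⟨-, q2, q3, q4⟩ := V5helper55.FQ.mainL h5 hmp hx hy hz h hreg v hv v1 v2 e f hpe hf
    rw [hu'] at q2 q3 q4
    refine ⟨?_, ?_, ?_⟩
    · intro h1
      by_contra hlt
      have h2 := q2 (by omega)
      rcases h1 with h1 | h1
      · exact h2.2 h1
      · exact h1 h2.1
    · intro h1 h3f
      by_contra hlt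
      exact h1 (q3 (by omega) h3f)
    · intro h1 h6f hW
      by_contra hlt
      rcases q4 (by omega) h6f with (h2 | h2 | h2) | h2
      · exact V5helper55.FQ.wiefV (by omega) (by omega) hW hx hy hz h v hv v1 v2 h2
      · exact V5helper55.FQ.wiefV (by omega) (by omega) hW hy hz hx (by rw [← h]; ring) v hv v2
          (v1.trans v2).symm (by rw [← v1]; exact h2)
      · exact V5helper55.FQ.wiefV (by omega) (by omega) hW hz hx hy (by rw [← h]; ring) v hv
          (v1.trans v2).symm v1 (by rw [← v2, ← v1]; exact h2)
      · exact h1 h2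
  · intro hW h3
    have h0 := hwie hW
    have h1 := hcub h3
    refine ⟨by omega, ?_⟩
    rintro hm5 v ⟨hv, v1, v2⟩
    have h2 := V5helper55.FQ.frst_pos h5 hmp hx hy hz h hreg v hv v1 v2
    rw [hu'] at h2
    have h4 : u ≤ Module.finrank ℚ K := by
      have h6 := V5helper55.FQ.total (q := p) hpp.ne_zero h
      rw [hu'] at h6
      omega
    omega

end Pool.Agent.Results.MP_ef6a16_nt.ResidueSymmetry
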