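import Pool.Agent.V5helper55.FQ.Two3

/-!
# The primes above `p` and the primes above two: all solutions of the Fermat equation

Let `K` be a number field of degree `m`, let `p ≥ 5` be a prime number with `3 m ≤ p` such that
`2 ^ (p - 1)` is not `1` modulo `p ^ 2`, let `p` divide `n`, and let `x, y, z` be nonzero elements of
`K` with `x ^ n + y ^ n = z ^ n`. Nothing is assumed on the divisibility of `x y z` by the primes above
`p`. For `r = p` and `r = 2` let `N r (x)`, `N r (y)`, `N r (z)` be the numbers of embeddings of `K`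
into the algebraic closure of the `r`-adic numbers at which `x` (or `y`, or `z`) is smaller than the
other two, and let `N r (0)` be the number of those at which the three have the same absolute value;
these four numbers have the sum `m`. For `r = p` the solution is in the first case if `N p (0) = m`
and in the second case if `N p (0) = 0`. Let `u = N p (0)`.

Suppose that all primes of `K` above two have norm two or four (or, more generally, that for each of
the others one of `x, y, z` is smaller than the others, the norm not being `1` modulo `p`), and that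
`u = 0`, or that `2 u + 3 ≤ p` and `p` does not divide `B (p - 3), ..., B (p - 2 u - 1)`, or that
`u (i + 1) (i + 2) + 3 ≤ p` where `i` is the index of irregularity of `p`. Then

(a) `u` and `N 2 (0)` are even;
(b) `N p (w) - N 2 (w) = (N 2 (0) - u) / 3` for `w = x, y, z`;
(c) if `m ≤ 5` then `N p = N 2`;
(d) if no prime above two has norm four then `N 2 (0) = 0` and six divides `u`, and `u = 0` if one of
    `N 2 (x)`, `N 2 (y)`, `N 2 (z)` is at most one;
(e) if there is only one prime above two and its norm is not four, then one of `x, y, z` is smaller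
    than the others at all embeddings at `p`, that is, at every prime above `p`, and at all embeddings
    at two.

In particular (for `m ≤ 5` and primes of norm two, or in case (e)) every solution is in the second case
in the strong sense that each prime above `p` divides exactly one of `x, y, z` (after scaling).

Proof. By scaling one may take integers `X, Y, Z` without a common prime divisor above `2 p`. The
relations of Stickelberger, applied to the value of `N (X + T Y)` at a `p`-th root of unity divided by a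
power of `1 - ζ`, show that the residues of `x / y` at the `u` balanced embeddings at `p` are invariant
under `t ↦ 1 / t`, and in the same way under the group of order six permuting `x, y, z`. By the
condition of Wieferich the residue `1` does not occur, so `u` is even. The same relations modulo two
give `N p (x) - N p (y) = N 2 (x) - N 2 (y)`, and in the same way for the other pairs. The balanced
embeddings at two have the residues `ω`, `ω ^ 2`, which are exchanged by the Frobenius.
-/

set_option autoImplicit false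

namespace Pool.Agent.Results.MP_ef6a16_nt.TypesAtTwo

open NumberField IsDedekindDomain

/-- The even numbers `k` with `2 ≤ k ≤ p - 3` for which `p` divides the numerator of the Bernoulli
number with index `k`. Their number is the index of irregularity of `p`. -/
def Irregular (p : ℕ) : Finset ℕ :=
  (Finset.range p).filter fun k => Even k ∧ 2 ≤ k ∧ k + 3 ≤ p ∧ (p : ℤ) ∣ (bernoulli k).num

/-- The number of embeddings of `K` into the algebraic closure of the `r`-adic numbers at which `a`
is smaller than `b`. -/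
noncomputable def smaller (r : ℕ) [Fact r.Prime] {K : Type} [Field K] (a b : K) : ℕ :=
  Nat.card {σ : K →+* PadicAlgCl r // ‖σ a‖ < ‖σ b‖}

/-- The number of those at which `x, y, z` have the same absolute value. -/
noncomputable def balanced (r : ℕ) [Fact r.Prime] {K : Type} [Field K] (x y z : K) : ℕ :=
  Nat.card {σ : K →+* PadicAlgCl r // ‖σ x‖ = ‖σ y‖ ∧ ‖σ y‖ = ‖σ z‖}

theorem result (K : Type) [Field K] [NumberField K] (m : ℕ) (hK : Module.finrank ℚ K = m)
    (p : ℕ) [Fact p.Prime] (h5 : 5 ≤ p) (hmp : 3 * m ≤ p) (hW : ¬ p ^ 2 ∣ 2 ^ (p - 1) - 1)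
    (n : ℕ) (hn : p ∣ n) (x y z : K) (h : x ^ n + y ^ n = z ^ n) (hx : x ≠ 0) (hy : y ≠ 0)
    (hz : z ≠ 0)
    (h2 : ∀ v : HeightOneSpectrum (𝓞 K), (2 : 𝓞 K) ∈ v.asIdeal →
      Nat.card (𝓞 K ⧸ v.asIdeal) ≤ 4 ∨ (¬ p ∣ Nat.card (𝓞 K ⧸ v.asIdeal) - 1 ∧
        ¬ (v.valuation K x = v.valuation K y ∧ v.valuation K y = v.valuation K z)))
    (u : ℕ) (hu : u = balanced p x y z)
    (hB : u = 0 ∨ (2 * u + 3 ≤ p ∧ ∀ k ∈ Irregular p, k + 2 * u + 1 < p) ∨
      u * (((Irregular p).card + 1) * ((Irregular p).card + 2)) + 3 ≤ p) :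
    -- (a)
    (Even u ∧ Even (balanced 2 x y z)) ∧
    -- (b)
    (3 * smaller p x y + u = 3 * smaller 2 x y + balanced 2 x y z ∧
      3 * smaller p y z + u = 3 * smaller 2 y z + balanced 2 x y z ∧
      3 * smaller p z x + u = 3 * smaller 2 z x + balanced 2 x y z) ∧
    -- (c)
    (m ≤ 5 → u = balanced 2 x y z ∧ smaller p x y = smaller 2 x y ∧
      smaller p y z = smaller 2 y z ∧ smaller p z x = smaller 2 z x) ∧
    -- (d)
    ((∀ v : HeightOneSpectrum (𝓞 K), (2 : 𝓞 K) ∈ v.asIdeal →
        Nat.card (𝓞 K ⧸ v.asIdeal) ≠ 4) →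
      balanced 2 x y z = 0 ∧ 6 ∣ u ∧
        (smaller 2 x y ≤ 1 ∨ smaller 2 y z ≤ 1 ∨ smaller 2 z x ≤ 1 → u = 0)) ∧
    -- (e)
    ((∀ v : HeightOneSpectrum (𝓞 K), (2 : 𝓞 K) ∈ v.asIdeal →
        Nat.card (𝓞 K ⧸ v.asIdeal) ≠ 4) →
      (∀ v v' : HeightOneSpectrum (𝓞 K), (2 : 𝓞 K) ∈ v.asIdeal → (2 : 𝓞 K) ∈ v'.asIdeal →
        v = v') →
      (smaller p x y = m ∧ smaller 2 x y = m) ∨ (smaller p y z = m ∧ smaller 2 y z = m) ∨
        (smaller p z x = m ∧ smaller 2 z x = m)) := by
  subst hK
  have hpp : p.Prime := Fact.out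
  have hp0 := hpp.ne_zero
  have hodd : Odd p := hpp.odd_of_ne_two (by omega)
  obtain ⟨k, rfl⟩ := hn
  have hk : k ≠ 0 := by
    rintro rfl
    rw [mul_zero, pow_zero, pow_zero, pow_zero] at h
    have : (1 : K) = 0 := by linear_combination h
    exact one_ne_zero this
  have hF : (x ^ k) ^ p + (y ^ k) ^ p + (-z ^ k) ^ p = 0 := by
    rw [hodd.neg_pow, ← pow_mul, ← pow_mul, ← pow_mul, mul_comm k p, h]
    ring
  have hX := pow_ne_zero k hx
  have hY := pow_ne_zero k hy
  have hZ : -z ^ k ≠ 0 := neg_ne_zero.2 (pow_ne_zero k hz)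
  have hcast : ((2 : ℕ) : 𝓞 K) = 2 := by norm_num
  have hval : ∀ v : HeightOneSpectrum (𝓞 K),
      (v.valuation K (x ^ k) = v.valuation K (y ^ k) ∧
        v.valuation K (y ^ k) = v.valuation K (-z ^ k)) →
      (v.valuation K x = v.valuation K y ∧ v.valuation K y = v.valuation K z) := by
    rintro v ⟨e1, e2⟩
    rw [map_pow, map_pow] at e1
    rw [Valuation.map_neg, map_pow, map_pow] at e2
    exact ⟨(pow_left_inj₀ zero_le' zero_le' hk).1 e1, (pow_left_inj₀ zero_le' zero_le' hk).1 e2⟩
  have h2' : ∀ v : HeightOneSpectrum (𝓞 K), ((2 : ℕ) : 𝓞 K) ∈ v.asIdeal →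
      Nat.card (𝓞 K ⧸ v.asIdeal) ≤ 4 ∨ (¬ p ∣ Nat.card (𝓞 K ⧸ v.asIdeal) - 1 ∧
        ¬ (v.valuation K (x ^ k) = v.valuation K (y ^ k) ∧
          v.valuation K (y ^ k) = v.valuation K (-z ^ k))) := by
    intro v hv
    rw [hcast] at hv
    rcases h2 v hv with h3 | ⟨h3, h4⟩
    · exact Or.inl h3
    · exact Or.inr ⟨h3, fun h5 => h4 (hval v h5)⟩
  -- translation of the numbers
  have c1 : ∀ (r : ℕ) [Fact r.Prime], V5helper55.FQ.emb r (x ^ k) (y ^ k) = smaller r x y :=
    fun r _ => V5helper55.FQ.emb_pow x y hk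
  have c2 : ∀ (r : ℕ) [Fact r.Prime], V5helper55.FQ.emb r (y ^ k) (-z ^ k) = smaller r y z :=
    fun r _ => by
      rw [V5helper55.FQ.emb_neg_right]
      exact V5helper55.FQ.emb_pow y z hk
  have c3 : ∀ (r : ℕ) [Fact r.Prime], V5helper55.FQ.emb r (-z ^ k) (x ^ k) = smaller r z x :=
    fun r _ => by
      rw [V5helper55.FQ.emb_neg_left]
      exact V5helper55.FQ.emb_pow z x hk
  have c4 : ∀ (r : ℕ) [Fact r.Prime], V5helper55.FQ.frst r (x ^ k) (y ^ k) (-z ^ k) =
      balanced r x y z := fun r _ => V5helper55.FQ.frst_pow x y z hk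
  have hreg : V5helper55.FQ.RegC p (V5helper55.FQ.frst p (x ^ k) (y ^ k) (-z ^ k)) := by
    rw [c4, ← hu]
    rcases hB with h | h | h
    · rw [h]
      exact V5helper55.FQ.RegC_zero (by omega)
    · exact Or.inl h
    · exact Or.inr h
  obtain ⟨r1, r2, r3, r4, r5⟩ := V5helper55.FQ.mainT2 h5 hmp hW hX hY hZ hF h2' hreg
  have t1 := V5helper55.FQ.total (q := p) hp0 hF
  have t2 := V5helper55.FQ.total (q := 2) hp0 hF
  rw [c1, c4, c1, c4] at r3
  rw [c2, c4, c2, c4] at r4
  rw [c3, c4, c3, c4] at r5
  rw [c4] at r1 r2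
  rw [c1, c2, c3, c4] at t1 t2
  rw [← hu] at r1 r3 r4 r5 t1
  have hd : (∀ v : HeightOneSpectrum (𝓞 K), (2 : 𝓞 K) ∈ v.asIdeal →
      Nat.card (𝓞 K ⧸ v.asIdeal) ≠ 4) → balanced 2 x y z = 0 := by
    intro h4
    rw [← c4]
    refine V5helper55.FQ.frst_two' (by omega) hX hY hZ hF fun v hv => ?_
    rcases h2' v hv with h3 | ⟨-, h3⟩
    · left
      have h6 := V5helper55.FQ.even_card v hv
      rw [hcast] at hv
      have h7 := h4 v hv
      have h8 : 0 < Nat.card (𝓞 K ⧸ v.asIdeal) := by
        have hfin : Finite (𝓞 K ⧸ v.asIdeal) :=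
          Ideal.finiteQuotientOfFreeOfNeBot v.asIdeal v.ne_bot
        exact Nat.card_pos
      omega
    · exact Or.inr h3
  rw [Nat.even_iff] at r1 r2
  refine ⟨⟨Nat.even_iff.2 r1, Nat.even_iff.2 r2⟩, ⟨r3, r4, r5⟩, ?_, ?_, ?_⟩
  · intro h6
    omega
  · intro h6
    have h7 := hd h6
    rw [h7] at r3 r4 r5
    refine ⟨h7, by omega, ?_⟩
    omega
  · intro h6 h7
    have h8 := hd h6
    have h9 := V5helper55.FQ.one_two' hp0 hX hY hZ hF (by rw [c4]; exact h8)
      (fun v v' hv hv' => h7 v v' (by rwa [hcast] at hv) (by rwa [hcast] at hv'))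
    rw [c1, c2, c3] at h9
    rw [h8] at r3 r4 r5 t2
    omega

end Pool.Agent.Results.MP_ef6a16_nt.TypesAtTwo
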